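import Pool.Agent.FU3.Stmts
import Pool.Agent.Helper42_FU2.OBL
import Pool.Agent.Helper9_FU2.TAL

/-!
# Squad FU3, row DTF: decision trees have small Fourier degree
-/

set_option autoImplicit false

open Finset

namespace Pool.Agent.FU3.H86

open Pool.Agent.FUR Pool.Agent.FU2

variable {N : ℕ}

theorem fc_const (c : ℝ) (S : Finset (Fin N)) (hS : S ≠ ∅) :
    fc (fun _ : Fin N → Bool => c) S = 0 := by
  unfold fc
  rw [← mul_sum, Pool.Agent.FU2.H09.sum_ch S hS, mul_zero, zero_div]

theorem ind_split (f : BF N) (v : Fin N) (x : Fin N → Bool) :
    ind f x = 1 * (ind (fun x => x v == true) x * ind (rst f v true) x) +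
      1 * (ind (fun x => x v == false) x * ind (rst f v false) x) := by
  unfold ind rst
  rcases h : x v with _ | _
  · have h1 : Function.update x v false = x := by
      rw [← h]
      exact Function.update_eq_self v x
    simp [h1, h]
  · have h1 : Function.update x v true = x := by
      rw [← h]
      exact Function.update_eq_self v x
    simp [h1, h]

theorem card_symm (S : Finset (Fin N)) (v : Fin N) : S.card ≤ (symmDiff S {v}).card + 1 := by
  have h : S ⊆ insert v (symmDiff S {v}) := by
    intro w hw
    rw [mem_insert, mem_symmDiff, mem_singleton]
    by_cases hv : w = v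
    · exact Or.inl hv
    · exact Or.inr (Or.inl ⟨hw, hv⟩)
  exact (card_le_card h).trans (card_insert_le _ _)

theorem dtf : DTFStmt := by
  intro N t
  induction t with
  | zero =>
    intro f hf S hS
    obtain ⟨b, hb⟩ := hf
    by_contra hc
    have hS' : S ≠ ∅ := by
      rintro rfl
      exact hc (by simp)
    apply hS
    have h1 : ind f = fun _ : Fin N → Bool => (if b then (1 : ℝ) else 0) := by
      funext x
      unfold ind
      rw [hb x]
    rw [h1]
    exact fc_const _ S hS'
  | succ t ih =>
    intro f hf S hS
    rcases hf with ⟨b, hb⟩ | ⟨v, hv⟩
    · by_contra hc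
      have hS' : S ≠ ∅ := by
        rintro rfl
        exact hc (by simp)
      apply hS
      have h1 : ind f = fun _ : Fin N → Bool => (if b then (1 : ℝ) else 0) := by
        funext x
        unfold ind
        rw [hb x]
      rw [h1]
      exact fc_const _ S hS'
    · by_contra hc
      apply hS
      have key : ∀ b : Bool, fc (fun x => ind (fun x => x v == b) x * ind (rst f v b) x) S = 0 := by
        intro b
        rw [Pool.Agent.FU2.H42.fc_lit]
        have h1 : fc (ind (rst f v b)) S = 0 := by
          by_contra h
          have := ih _ (hv b) S h
          omega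
        have h2 : fc (ind (rst f v b)) (symmDiff S {v}) = 0 := by
          by_contra h
          have := ih _ (hv b) _ h
          have h3 := card_symm S v
          omega
        rw [h1, h2]
        ring
      have h3 : ind f = fun x => 1 * (ind (fun x => x v == true) x * ind (rst f v true) x) +
          1 * (ind (fun x => x v == false) x * ind (rst f v false) x) := by
        funext x
        exact ind_split f v x
      rw [h3, Pool.Agent.FU2.H42.fc_lin, key true, key false]
      ring

end Pool.Agent.FU3.H86
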